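import Pool.Agent.U722.FF.Stm4

set_option autoImplicit false

/-! Project LB, package MFR: no conditions above the length of the resolution. -/

namespace Pool.Agent.U645.LBP

open TH57.FF Matrix

section base

variable {R : Type} [Ring R]

/-- the index types of a resolution of length zero -/
def bi (I : Type) : ℕ → Type
  | 0 => I
  | _ + 1 => Empty

instance biF (I : Type) [Fintype I] : ∀ n, Fintype (bi I n)
  | 0 => (inferInstance : Fintype I)
  | _ + 1 => (inferInstance : Fintype Empty)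

/-- the index types of an extended resolution -/
def ci (I : Type) (ι : ℕ → Type) : ℕ → Type
  | 0 => I
  | n + 1 => ι n

/-- they are finite -/
@[instance_reducible]
def ciF (I : Type) (ι : ℕ → Type) (h0 : Fintype I) (h1 : ∀ n, Fintype (ι n)) :
    ∀ n, Fintype (ci I ι n)
  | 0 => h0
  | n + 1 => h1 n

/-- the matrices of an extended resolution -/
def cd (I : Type) (ι : ℕ → Type) (A : Matrix (ι 0) I R) (d : ∀ n, Matrix (ι (n + 1)) (ι n) R) :
    ∀ n, Matrix (ci I ι (n + 1)) (ci I ι n) R
  | 0 => A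
  | n + 1 => d n

/-- an empty sum -/
lemma vm_empty {ι κ : Type} [Fintype ι] [IsEmpty ι] (w : ι → R) (A : Matrix ι κ R) :
    w ᵥ* A = 0 := by
  funext j
  simp [vecMul, dotProduct]

/-- the matrices of a resolution of length zero -/
def bd (I : Type) : ∀ n, Matrix (bi I (n + 1)) (bi I n) R := fun _ i => Empty.elim i

instance biE (I : Type) (n : ℕ) : IsEmpty (bi I (n + 1)) := (inferInstance : IsEmpty Empty)

end base

theorem mat_of_FR {R : Type} [Ring R] : ∀ (n : ℕ) (M : Type) [AddCommGroup M] [Module R M],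
    FR R n M → ∃ (ι : ℕ → Type) (_ : ∀ m, Fintype (ι m)) (d : ∀ m, Matrix (ι (m + 1)) (ι m) R)
      (ε : (ι 0 → R) →ₗ[R] M), (∀ m, n < m → IsEmpty (ι m)) ∧ Function.Surjective ε ∧
      (∀ v : ι 0 → R, ε v = 0 ↔ ∃ w : ι 1 → R, w ᵥ* d 0 = v) ∧
      (∀ (m : ℕ) (v : ι (m + 1) → R), v ᵥ* d m = 0 ↔ ∃ w : ι (m + 2) → R, w ᵥ* d (m + 1) = v)
  | 0, M, _, _, h => by
    obtain ⟨h1, h2⟩ := h
    let b := Module.Free.chooseBasis R M
    refine ⟨bi (Module.Free.ChooseBasisIndex R M), biF _, bd _,
      b.equivFun.symm.toLinearMap, ?_, b.equivFun.symm.surjective, ?_, ?_⟩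
    · intro m hm
      match m with
      | 0 => exact absurd hm (lt_irrefl _)
      | m + 1 => exact biE _ m
    · intro v
      constructor
      · intro hv
        have hv0 : v = 0 := b.equivFun.symm.injective (hv.trans (map_zero _).symm)
        exact ⟨0, (vm_empty _ _).trans hv0.symm⟩
      · rintro ⟨w, rfl⟩
        exact (congrArg _ (vm_empty _ _)).trans (map_zero _)
    · intro m v
      constructor
      · intro _
        exact ⟨0, Subsingleton.elim _ _⟩
      · intro _
        exact vm_empty _ _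
  | n + 1, M, _, _, h => by
    classical
    obtain ⟨κ, i1, f, hf, h1⟩ := h
    obtain ⟨ι, hι, d, ε, g1, g2, g3, g4⟩ := mat_of_FR n _ h1
    let A : Matrix (ι 0) κ R := fun i => (ε (Pi.single i 1) : κ → R)
    have hA : ∀ v : ι 0 → R, v ᵥ* A = (ε v : κ → R) := by
      intro v
      have e1 : ε v = ∑ i, v i • ε (Pi.single i 1) := by
        conv_lhs => rw [pi_eq_sum_univ' v]
        rw [map_sum]
        exact Finset.sum_congr rfl fun i _ => map_smul ε _ _
      rw [e1, Submodule.coe_sum, vecMul_eq_sum]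
      rfl
    have key : ∀ v : ι 0 → R, v ᵥ* A = 0 ↔ ∃ w : ι 1 → R, w ᵥ* d 0 = v := by
      intro v
      rw [hA, ← g3 v, Submodule.coe_eq_zero]
    refine ⟨ci κ ι, ciF κ ι i1 hι, cd κ ι A d, f, ?_, hf, ?_, ?_⟩
    · intro m hm
      match m with
      | 0 => exact absurd hm (by omega)
      | m + 1 => exact g1 m (by omega)
    · intro v
      change f v = 0 ↔ ∃ w : ι 0 → R, w ᵥ* A = v
      constructor
      · intro hv
        obtain ⟨w, hw⟩ := g2 ⟨v, hv⟩
        exact ⟨w, by rw [hA, hw]⟩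
      · rintro ⟨w, rfl⟩
        rw [hA]
        exact (ε w).2
    · intro m v
      match m with
      | 0 => exact key v
      | m + 1 => exact g4 m v

theorem t_MFR : U722.FF.S_MFR := by
  intro R U _ _ ψ n M _ _ h
  obtain ⟨ι, hι, d, ε, g1, g2, g3, g4⟩ := mat_of_FR n M h
  refine ⟨n, ι, hι, d, ε, g1, g2, g3, g4, fun h0 => absurd h0 (Nat.succ_ne_zero n), ?_⟩
  intro m hm v _
  have := g1 (m + 1) (by omega)
  exact ⟨0, Subsingleton.elim _ _⟩

end Pool.Agent.U645.LBP
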